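import Pool.Agent.H34.WB.Lim

/-! `S_psd`: almost orthogonality of a small set of words and its Fourier transform, as an operator inequality
(module of the project WB2 of helper34). -/

set_option autoImplicit false

open MeasureTheory Filter Topology Set
open scoped ComplexConjugate Matrix ComplexOrder
open Pool.Agent.Results.MP_07c750_an.WalshBakerQuantumLimits
open Pool.Agent.H34.WB

noncomputable section

namespace Pool.Agent.H71.WB

variable {D : ℕ} {ρ : (n : ℕ) → Matrix (Fin n → Fin D) (Fin n → Fin D) ℂ}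

lemma T_univ (h : IsInvariantState D ρ) (n m : ℕ) : TZ ρ (Finset.univ : Finset (Fin n → Fin D)) m = ρ m := by
  ext u v
  induction n with
  | zero =>
    unfold TZ
    rw [Fintype.sum_unique, Fin.append_left_nil _ _ rfl, Fin.append_left_nil _ _ rfl]
    exact rho_cast ρ _ _ _
  | succ n ih =>
    rw [← ih, ← T_front h (Finset.univ : Finset (Fin n → Fin D))]
    refine congrArg (fun B => TZ ρ B m u v) ?_
    ext z
    simp [cset]

lemma norm_quad {ι κ : Type*} [Fintype ι] [Fintype κ] (N : Matrix κ ι ℂ) (c : ι → ℂ) :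
    star c ⬝ᵥ ((Nᴴ * N) *ᵥ c) = ((∑ k, ‖∑ v, N k v * c v‖ ^ 2 : ℝ) : ℂ) := by
  rw [← Matrix.mulVec_mulVec, Matrix.dotProduct_mulVec, ← Matrix.star_mulVec]
  push_cast
  refine Finset.sum_congr rfl fun k _ => ?_
  rw [Pi.star_apply, RCLike.star_def, ← Complex.conj_mul']
  rfl

lemma TZ_quad {n m : ℕ} {M : Matrix (Fin (n + m) → Fin D) (Fin (n + m) → Fin D) ℂ} (hM : ρ (n + m) = Mᴴ * M)
    (A : Finset (Fin n → Fin D)) (c : (Fin m → Fin D) → ℂ) :
    star c ⬝ᵥ (TZ ρ A m *ᵥ c) = ((∑ z ∈ A, ∑ k, ‖∑ v, M k (Fin.append z v) * c v‖ ^ 2 : ℝ) : ℂ) := by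
  have h1 : TZ ρ A m = ∑ z ∈ A, (M.submatrix id (Fin.append z))ᴴ * (M.submatrix id (Fin.append z)) := by
    ext u v
    rw [Matrix.sum_apply]
    unfold TZ
    refine Finset.sum_congr rfl fun z _ => ?_
    rw [hM, Matrix.mul_apply, Matrix.mul_apply]
    rfl
  rw [h1, Matrix.sum_mulVec, dotProduct_sum, Complex.ofReal_sum]
  refine Finset.sum_congr rfl fun z _ => ?_
  rw [norm_quad]
  rfl

lemma fpow_append (D : ℕ) {n m : ℕ} (z z' : Fin n → Fin D) (u v : Fin m → Fin D) :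
    fourierPow D (n + m) (Fin.append z u) (Fin.append z' v) = fourierPow D n z z' * fourierPow D m u v := by
  unfold fourierPow
  rw [Fin.prod_univ_add]
  simp only [Fin.append_left, Fin.append_right]

lemma fpow_unit' (D n : ℕ) (hD : 0 < D) : fourierPow D n * (fourierPow D n)ᴴ = 1 :=
  mul_eq_one_comm.1 (fpow_unit D n hD)

theorem psd : S_psd := by
  classical
  intro D hD ρ h n m A
  have hD0 : 0 < D := by omega
  obtain ⟨M, hM⟩ := psd_factor (h.posSemidef (n + m))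
  set G := fourierPow D (n + m) with hG
  have hM' : ρ (n + m) = (M * Gᴴ)ᴴ * (M * Gᴴ) := by
    have h1 : Gᴴ * ρ (n + m) * G = ρ (n + m) := h.fourier (n + m)
    have h2 : G * Gᴴ = 1 := fpow_unit' D (n + m) hD0
    calc ρ (n + m) = (G * Gᴴ) * ρ (n + m) * (G * Gᴴ) := by rw [h2, Matrix.one_mul, Matrix.mul_one]
      _ = G * (Gᴴ * ρ (n + m) * G) * Gᴴ := by simp only [Matrix.mul_assoc]
      _ = G * (Mᴴ * M) * Gᴴ := by rw [h1, hM]
      _ = _ := by rw [Matrix.conjTranspose_mul, Matrix.conjTranspose_conjTranspose]; simp only [Matrix.mul_assoc]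
  set ε : ℝ := (A.card : ℝ) ^ 2 / (D : ℝ) ^ n with hε
  have hT := T_psd h A m
  refine Matrix.PosSemidef.of_dotProduct_mulVec_nonneg ?_ fun c => ?_
  · refine Matrix.IsHermitian.sub (Matrix.IsHermitian.sub ?_ hT.isHermitian)
      (Matrix.isHermitian_conjTranspose_mul_mul _ hT.isHermitian)
    unfold Matrix.IsHermitian
    rw [Matrix.conjTranspose_smul, (h.posSemidef m).isHermitian.eq, RCLike.star_def, Complex.conj_ofReal]
  · set y : (Fin n → Fin D) → (Fin (n + m) → Fin D) → ℂ := fun z k => ∑ v, M k (Fin.append z v) * c v with hy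
    have q1 : star c ⬝ᵥ (ρ m *ᵥ c) = ((∑ z, ∑ k, ‖y z k‖ ^ 2 : ℝ) : ℂ) := by
      rw [← T_univ h n m, TZ_quad hM]
    have q2 : star c ⬝ᵥ (TZ ρ A m *ᵥ c) = ((∑ z ∈ A, ∑ k, ‖y z k‖ ^ 2 : ℝ) : ℂ) := TZ_quad hM A c
    have q3 : star c ⬝ᵥ (((fourierPow D m)ᴴ * TZ ρ A m * fourierPow D m) *ᵥ c) =
        ((∑ z ∈ A, ∑ k, ‖∑ z', y z' k * (fourierPow D n)ᴴ z' z‖ ^ 2 : ℝ) : ℂ) := by
      have e1 : star c ⬝ᵥ (((fourierPow D m)ᴴ * TZ ρ A m * fourierPow D m) *ᵥ c) =
          star (fourierPow D m *ᵥ c) ⬝ᵥ (TZ ρ A m *ᵥ (fourierPow D m *ᵥ c)) := by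
        rw [← Matrix.mulVec_mulVec, ← Matrix.mulVec_mulVec, Matrix.dotProduct_mulVec, ← Matrix.star_mulVec]
      rw [e1, TZ_quad hM']
      congr 1
      refine Finset.sum_congr rfl fun z _ => Finset.sum_congr rfl fun k _ => ?_
      congr 2
      -- the sum over all words of length `n + m` as a double sum
      have e2 : ∀ v, (M * Gᴴ) k (Fin.append z v) =
          ∑ z', ∑ v', M k (Fin.append z' v') * (star (fourierPow D n z z') * star (fourierPow D m v v')) := by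
        intro v
        rw [Matrix.mul_apply, ← (Fin.appendEquiv n m).sum_comp, Fintype.sum_prod_type]
        refine Finset.sum_congr rfl fun z' _ => Finset.sum_congr rfl fun v' _ => ?_
        rw [Matrix.conjTranspose_apply, hG]
        show M k (Fin.append z' v') * star (fourierPow D (n + m) (Fin.append z v) (Fin.append z' v')) = _
        rw [fpow_append, star_mul']
      have e3 : ∀ v', ∑ v, star (fourierPow D m v v') * (fourierPow D m *ᵥ c) v = c v' := by
        intro v'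
        have h1 : ((fourierPow D m)ᴴ *ᵥ (fourierPow D m *ᵥ c)) v' = c v' := by
          rw [Matrix.mulVec_mulVec, fpow_unit D m hD0, Matrix.one_mulVec]
        exact h1
      simp_rw [e2, Finset.sum_mul]
      rw [Finset.sum_comm]
      refine Finset.sum_congr rfl fun z' _ => ?_
      rw [Finset.sum_comm, hy, Finset.sum_mul]
      refine Finset.sum_congr rfl fun v' _ => ?_
      rw [Matrix.conjTranspose_apply, ← e3 v', Finset.mul_sum, Finset.sum_mul]
      refine Finset.sum_congr rfl fun v _ => ?_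
      ring
    rw [Matrix.sub_mulVec, Matrix.sub_mulVec, Matrix.smul_mulVec, dotProduct_sub, dotProduct_sub, dotProduct_smul,
      q1, q2, q3, smul_eq_mul, ← Complex.ofReal_mul, ← Complex.ofReal_sub, ← Complex.ofReal_sub, Complex.zero_le_real]
    have hg : (0 : ℝ) ≤ (Real.sqrt D)⁻¹ ^ n := by positivity
    have hU : ((fourierPow D n)ᴴ)ᴴ * (fourierPow D n)ᴴ = 1 := by
      rw [Matrix.conjTranspose_conjTranspose, fpow_unit' D n hD0]
    have hN : ∀ u v, ‖(fourierPow D n)ᴴ u v‖ ≤ (Real.sqrt D)⁻¹ ^ n := by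
      intro u v
      rw [Matrix.conjTranspose_apply, norm_star, fpow_norm]
    have key : ∀ k, ∑ z ∈ A, ‖y z k‖ ^ 2 + ∑ z ∈ A, ‖∑ z', y z' k * (fourierPow D n)ᴴ z' z‖ ^ 2 ≤
        (1 + (Real.sqrt D)⁻¹ ^ n * Real.sqrt ((A.card : ℝ) * A.card)) * ∑ z, ‖y z k‖ ^ 2 := fun k =>
      unc_vec ((fourierPow D n)ᴴ) hU _ hg hN (fun z => y z k) A A
    have h2 : (Real.sqrt D)⁻¹ ^ n * Real.sqrt ((A.card : ℝ) * A.card) = Real.sqrt ε := by
      have h3 : Real.sqrt ((D : ℝ) ^ n) = Real.sqrt D ^ n := by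
        rw [Real.sqrt_eq_iff_mul_self_eq (by positivity) (by positivity), ← mul_pow,
          Real.mul_self_sqrt (by positivity)]
      rw [hε, Real.sqrt_div' _ (by positivity), inv_pow, h3, sq]
      field_simp
    have h4 : ∑ z ∈ A, ∑ k, ‖y z k‖ ^ 2 + ∑ z ∈ A, ∑ k, ‖∑ z', y z' k * (fourierPow D n)ᴴ z' z‖ ^ 2 ≤
        (1 + Real.sqrt ε) * ∑ z, ∑ k, ‖y z k‖ ^ 2 := by
      have s1 : ∑ z ∈ A, ∑ k, ‖y z k‖ ^ 2 = ∑ k, ∑ z ∈ A, ‖y z k‖ ^ 2 := Finset.sum_comm
      have s2 : ∑ z ∈ A, ∑ k, ‖∑ z', y z' k * (fourierPow D n)ᴴ z' z‖ ^ 2 =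
          ∑ k, ∑ z ∈ A, ‖∑ z', y z' k * (fourierPow D n)ᴴ z' z‖ ^ 2 := Finset.sum_comm
      have s3 : ∑ z, ∑ k, ‖y z k‖ ^ 2 = ∑ k, ∑ z, ‖y z k‖ ^ 2 := Finset.sum_comm
      rw [s1, s2, s3, ← Finset.sum_add_distrib, Finset.mul_sum, ← h2]
      exact Finset.sum_le_sum fun k _ => key k
    linarith

end Pool.Agent.H71.WB
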